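import Mathlib

/-!
# Minimal vectors (piece LIM1 of the project TW)
-/

set_option autoImplicit false

namespace Pool.Agent.E8helper39.TW

open Matrix Filter Topology

variable {n : Type} [Fintype n] [DecidableEq n]

/-- The squared norm of a matrix. -/
noncomputable def N2 (y : Matrix n n ℂ) : ℝ := ∑ i, ∑ j, ‖y i j‖ ^ 2

omit [DecidableEq n] in
theorem N2_nonneg (y : Matrix n n ℂ) : 0 ≤ N2 y :=
  Finset.sum_nonneg fun _ _ => Finset.sum_nonneg fun _ _ => by positivity

omit [DecidableEq n] in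
theorem N2_trace (y : Matrix n n ℂ) : (y * yᴴ).trace = ((N2 y : ℝ) : ℂ) := by
  simp only [Matrix.trace, Matrix.diag_apply, Matrix.mul_apply, Matrix.conjTranspose_apply, N2]
  push_cast
  refine Finset.sum_congr rfl fun i _ => Finset.sum_congr rfl fun j _ => ?_
  rw [Complex.star_def, Complex.mul_conj, Complex.normSq_eq_norm_sq]
  push_cast
  rfl

omit [DecidableEq n] in
theorem N2_eq_zero (y : Matrix n n ℂ) (h : N2 y = 0) : y = 0 := by
  have h1 : ∀ i, ∑ j, ‖y i j‖ ^ 2 = 0 := by
    have := (Finset.sum_eq_zero_iff_of_nonneg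
      (fun i _ => Finset.sum_nonneg fun j _ => by positivity)).1 h
    exact fun i => this i (Finset.mem_univ i)
  ext i j
  have h2 := (Finset.sum_eq_zero_iff_of_nonneg (fun j _ => by positivity)).1 (h1 i) j
    (Finset.mem_univ j)
  simpa using h2

omit [DecidableEq n] in
theorem N2_add (A B : Matrix n n ℂ) :
    N2 (A + B) = N2 A + 2 * ((B * Aᴴ).trace).re + N2 B := by
  have h1 : ((N2 (A + B) : ℝ) : ℂ) = (N2 A : ℂ) + (B * Aᴴ).trace + star (B * Aᴴ).trace
      + (N2 B : ℂ) := by
    rw [← N2_trace, ← N2_trace A, ← N2_trace B, ← Matrix.trace_conjTranspose,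
      Matrix.conjTranspose_mul, Matrix.conjTranspose_conjTranspose, Matrix.conjTranspose_add]
    simp only [add_mul, mul_add, Matrix.trace_add]
    ring
  have h2 := congrArg Complex.re h1
  simp only [Complex.add_re, Complex.ofReal_re, Complex.star_def, Complex.conj_re] at h2
  rw [h2]; ring

omit [DecidableEq n] in
theorem N2_smul (s : ℂ) (A : Matrix n n ℂ) : N2 (s • A) = ‖s‖ ^ 2 * N2 A := by
  simp only [N2, Matrix.smul_apply, smul_eq_mul, norm_mul, mul_pow, Finset.mul_sum]

omit [DecidableEq n] in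
theorem N2_cont : Continuous (N2 : Matrix n n ℂ → ℝ) := by
  unfold N2
  fun_prop

omit [DecidableEq n] in
theorem le_N2 (y : Matrix n n ℂ) (i j : n) : ‖y i j‖ ^ 2 ≤ N2 y := by
  unfold N2
  have h1 : ‖y i j‖ ^ 2 ≤ ∑ j, ‖y i j‖ ^ 2 :=
    Finset.single_le_sum (f := fun j => ‖y i j‖ ^ 2) (fun _ _ => by positivity) (Finset.mem_univ j)
  have h2 : ∑ j, ‖y i j‖ ^ 2 ≤ ∑ i, ∑ j, ‖y i j‖ ^ 2 :=
    Finset.single_le_sum (f := fun i => ∑ j, ‖y i j‖ ^ 2)
      (fun _ _ => Finset.sum_nonneg fun _ _ => by positivity) (Finset.mem_univ i)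
  exact h1.trans h2

variable {d : ℕ}

/-- The squared norm of a tuple. -/
noncomputable def NN (y : Fin d → Matrix n n ℂ) : ℝ := ∑ i, N2 (y i)

omit [DecidableEq n] in
theorem NN_nonneg (y : Fin d → Matrix n n ℂ) : 0 ≤ NN y :=
  Finset.sum_nonneg fun _ _ => N2_nonneg _

omit [DecidableEq n] in
theorem NN_cont : Continuous (NN : (Fin d → Matrix n n ℂ) → ℝ) := by
  unfold NN
  exact continuous_finsetSum _ fun i _ => N2_cont.comp (continuous_apply i)

omit [DecidableEq n] in
theorem le_NN (y : Fin d → Matrix n n ℂ) (i : Fin d) : N2 (y i) ≤ NN y :=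
  Finset.single_le_sum (f := fun i => N2 (y i)) (fun _ _ => N2_nonneg _) (Finset.mem_univ i)

/-- The action on tuples. -/
noncomputable def act (h : Matrix n n ℂ) (b : Matrix (Fin d) (Fin d) ℂ)
    (y : Fin d → Matrix n n ℂ) : Fin d → Matrix n n ℂ :=
  fun i => ∑ j, b i j • (h * y j * h⁻¹)

theorem act_act (h g : Matrix n n ℂ) (b a : Matrix (Fin d) (Fin d) ℂ)
    (y : Fin d → Matrix n n ℂ) : act h b (act g a y) = act (h * g) (b * a) y := by
  funext i
  simp only [act, Matrix.mul_inv_rev]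
  simp only [Matrix.mul_apply (M := b), Finset.mul_sum, Finset.sum_mul, Finset.smul_sum,
    Finset.sum_smul, Matrix.mul_smul, Matrix.smul_mul, smul_smul]
  rw [Finset.sum_comm]
  refine Finset.sum_congr rfl fun k _ => Finset.sum_congr rfl fun j _ => ?_
  simp only [Matrix.mul_assoc]

theorem act_cont (h : Matrix n n ℂ) (b : Matrix (Fin d) (Fin d) ℂ) :
    Continuous (act h b : (Fin d → Matrix n n ℂ) → _) := by
  unfold act
  refine continuous_pi fun i => continuous_finsetSum _ fun j _ => ?_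
  have h1 : Continuous fun y : Fin d → Matrix n n ℂ => y j := continuous_apply j
  have h2 : Continuous fun y : Fin d → Matrix n n ℂ => h * y j * h⁻¹ :=
    (continuous_const.matrix_mul h1).matrix_mul continuous_const
  exact h2.const_smul (b i j)

theorem act_one (y : Fin d → Matrix n n ℂ) : act 1 1 y = y := by
  funext i
  simp [act, Matrix.one_apply]

theorem act_trace (h : Matrix n n ℂ) (hh : IsUnit h.det) (b : Matrix (Fin d) (Fin d) ℂ)
    (y : Fin d → Matrix n n ℂ) :
    (Matrix.of fun i j => (act h b y i * act h b y j).trace) =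
      b * (Matrix.of fun i j => (y i * y j).trace) * bᵀ := by
  ext i j
  simp only [act, Matrix.of_apply, Matrix.mul_apply (M := b * _), Matrix.mul_apply (M := b),
    Matrix.transpose_apply, Finset.sum_mul, Finset.mul_sum, Matrix.trace_sum]
  refine Finset.sum_congr rfl fun k _ => Finset.sum_congr rfl fun l _ => ?_
  rw [Matrix.smul_mul, Matrix.mul_smul, Matrix.trace_smul, Matrix.trace_smul]
  have : (h * y l * h⁻¹) * (h * y k * h⁻¹) = h * (y l * y k) * h⁻¹ := by
    calc (h * y l * h⁻¹) * (h * y k * h⁻¹) = h * y l * (h⁻¹ * h) * y k * h⁻¹ := by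
          simp only [Matrix.mul_assoc]
      _ = _ := by rw [Matrix.nonsing_inv_mul h hh]; simp only [Matrix.mul_assoc, Matrix.one_mul]
  rw [this, Matrix.trace_mul_comm, ← Matrix.mul_assoc, Matrix.nonsing_inv_mul h hh, Matrix.one_mul]
  simp only [smul_eq_mul]
  ring

/-- The pairs which act. -/
def KK (C : Set (Matrix n n ℂ)) (d : ℕ) : Set (Matrix n n ℂ × Matrix (Fin d) (Fin d) ℂ) :=
  {q | IsUnit q.1.det ∧ (∀ c ∈ C, q.1 * c = c * q.1) ∧ ‖q.2.det‖ = 1}

theorem exists_min (C : Set (Matrix n n ℂ)) (x : Fin d → Matrix n n ℂ) :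
    ∃ (q : ℕ → Matrix n n ℂ × Matrix (Fin d) (Fin d) ℂ) (u : Fin d → Matrix n n ℂ),
      (∀ k, q k ∈ KK C d) ∧ Tendsto (fun k => act (q k).1 (q k).2 x) atTop (𝓝 u) ∧
      ∀ h b, (h, b) ∈ KK C d → NN u ≤ NN (act h b u) := by
  set S : Set ℝ := (fun q : Matrix n n ℂ × Matrix (Fin d) (Fin d) ℂ => NN (act q.1 q.2 x)) ''
    KK C d with hS
  have hne : S.Nonempty := ⟨_, ⟨(1, 1), ⟨by simp, by simp, by simp⟩, rfl⟩⟩
  have hbd : BddBelow S := ⟨0, by rintro _ ⟨q, -, rfl⟩; exact NN_nonneg _⟩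
  obtain ⟨r, -, hr, hrS⟩ := exists_seq_tendsto_sInf hne hbd
  choose q hq hqr using hrS
  set m := sInf S with hm
  have hlow : ∀ q ∈ KK C d, m ≤ NN (act q.1 q.2 x) := fun q hq => csInf_le hbd ⟨q, hq, rfl⟩
  -- boundedness
  obtain ⟨R, hR⟩ : ∃ R : ℝ, ∀ k, NN (act (q k).1 (q k).2 x) ≤ R := by
    obtain ⟨R, hR⟩ := hr.bddAbove_range
    refine ⟨R, fun k => ?_⟩
    have := hR ⟨k, rfl⟩
    rw [← hqr k] at this
    exact this
  let K : Set (Fin d → n → n → ℂ) := Set.univ.pi fun _ => Set.univ.pi fun _ => Set.univ.pi fun _ =>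
    Metric.closedBall (0 : ℂ) (R + 1)
  have hK : IsCompact K := isCompact_univ_pi fun _ => isCompact_univ_pi fun _ =>
    isCompact_univ_pi fun _ => isCompact_closedBall _ _
  have hmem : ∀ k, (fun i a b => act (q k).1 (q k).2 x i a b) ∈ K := by
    intro k
    simp only [K, Set.mem_univ_pi, Metric.mem_closedBall, dist_zero_right]
    intro i a b
    have h1 := le_N2 (act (q k).1 (q k).2 x i) a b
    have h2 := le_NN (act (q k).1 (q k).2 x) i
    have h3 := hR k
    have h0 := norm_nonneg (act (q k).1 (q k).2 x i a b)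
    nlinarith [sq_nonneg (‖act (q k).1 (q k).2 x i a b‖ - 1)]
  obtain ⟨u, -, φ, hφ, hu⟩ := hK.tendsto_subseq hmem
  have hu' : Tendsto (fun k => act (q (φ k)).1 (q (φ k)).2 x) atTop (𝓝 (u : Fin d → Matrix n n ℂ)) :=
    hu
  refine ⟨fun k => q (φ k), u, fun k => hq _, hu', fun h b hb => ?_⟩
  have h1 : Tendsto (fun k => NN (act (q (φ k)).1 (q (φ k)).2 x)) atTop
      (𝓝 (NN (u : Fin d → Matrix n n ℂ))) := (NN_cont.tendsto _).comp hu'
  have h2 : Tendsto (fun k => NN (act (q (φ k)).1 (q (φ k)).2 x)) atTop (𝓝 m) := by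
    have h3 : (fun k => NN (act (q (φ k)).1 (q (φ k)).2 x)) = r ∘ φ := by
      funext k; exact hqr (φ k)
    rw [h3]
    exact hr.comp hφ.tendsto_atTop
  rw [tendsto_nhds_unique h1 h2]
  have h4 : Tendsto (fun k => NN (act h b (act (q (φ k)).1 (q (φ k)).2 x))) atTop
      (𝓝 (NN (act h b (u : Fin d → Matrix n n ℂ)))) :=
    ((NN_cont.comp (act_cont h b)).tendsto _).comp hu'
  refine ge_of_tendsto' h4 fun k => ?_
  rw [act_act]
  refine hlow (h * (q (φ k)).1, b * (q (φ k)).2) ⟨?_, ?_, ?_⟩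
  · rw [Matrix.det_mul]; exact hb.1.mul (hq (φ k)).1
  · intro c hc
    show h * (q (φ k)).1 * c = c * (h * (q (φ k)).1)
    rw [Matrix.mul_assoc, (hq (φ k)).2.1 c hc, ← Matrix.mul_assoc, hb.2.1 c hc, Matrix.mul_assoc]
  · show ‖(b * (q (φ k)).2).det‖ = 1
    rw [Matrix.det_mul, norm_mul, hb.2.2, (hq (φ k)).2.2, one_mul]

/-- If `2 Re (s w) + |s|² B ≥ 0` for all `s` then `w = 0`. -/
theorem w_zero (w : ℂ) (B : ℝ) (h : ∀ s : ℂ, 0 ≤ 2 * (s * w).re + ‖s‖ ^ 2 * B) : w = 0 := by
  by_contra hw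
  have hpos : 0 < ‖w‖ ^ 2 := by positivity
  have key : ∀ t : ℝ, 0 < t → 2 ≤ t * B := by
    intro t ht
    have h1 := h (-(t : ℂ) * star w)
    have h2 : (-(t : ℂ) * star w * w).re = - t * ‖w‖ ^ 2 := by
      have : star w * w = ((‖w‖ ^ 2 : ℝ) : ℂ) := by
        rw [Complex.star_def, mul_comm, Complex.mul_conj, Complex.normSq_eq_norm_sq]
      rw [mul_assoc, this]
      have : -(t : ℂ) * ((‖w‖ ^ 2 : ℝ) : ℂ) = ((-t * ‖w‖ ^ 2 : ℝ) : ℂ) := by push_cast; ring
      rw [this, Complex.ofReal_re]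
    have h3 : ‖-(t : ℂ) * star w‖ ^ 2 = t ^ 2 * ‖w‖ ^ 2 := by
      rw [norm_mul, norm_neg, Complex.norm_real, Complex.star_def, Complex.norm_conj, mul_pow,
        Real.norm_eq_abs, sq_abs]
    rw [h2, h3] at h1
    have h4 : 0 ≤ t * ‖w‖ ^ 2 * (t * B - 2) := by nlinarith
    have h5 : 0 < t * ‖w‖ ^ 2 := mul_pos ht hpos
    have h6 := nonneg_of_mul_nonneg_right h4 h5
    linarith
  have h1 := key 1 one_pos
  have h2 : (0 : ℝ) < B := by linarith
  have h3 := key (1 / B) (by positivity)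
  rw [one_div, inv_mul_cancel₀ h2.ne'] at h3
  linarith

theorem orth_ne {C : Set (Matrix n n ℂ)} {u : Fin d → Matrix n n ℂ}
    (hmin : ∀ h b, (h, b) ∈ KK C d → NN u ≤ NN (act h b u)) {i j : Fin d} (hij : i ≠ j) :
    (u j * (u i)ᴴ).trace = 0 := by
  refine w_zero _ (N2 (u j)) fun s => ?_
  have h1 := hmin 1 (Matrix.transvection i j s)
    ⟨by simp, by simp, by simp [Matrix.det_transvection_of_ne i j hij]⟩
  have h2 : act 1 (Matrix.transvection i j s) u = Function.update u i (u i + s • u j) := by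
    funext k
    simp only [act, Matrix.transvection, Matrix.add_apply, add_smul, Finset.sum_add_distrib,
      Matrix.one_mul, inv_one, Matrix.mul_one]
    have e1 : ∑ l, (1 : Matrix (Fin d) (Fin d) ℂ) k l • u l = u k := by
      simp [Matrix.one_apply]
    have e2 : ∑ l, (Matrix.single i j s : Matrix (Fin d) (Fin d) ℂ) k l • u l =
        if k = i then s • u j else 0 := by
      by_cases hk : k = i
      · subst hk
        rw [if_pos rfl, Finset.sum_eq_single j]
        · simp
        · intro l _ hl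
          rw [Matrix.single_apply_of_ne _ _ _ _ _ (by tauto), zero_smul]
        · simp
      · rw [if_neg hk]
        refine Finset.sum_eq_zero fun l _ => ?_
        rw [Matrix.single_apply_of_ne _ _ _ _ _ (by tauto), zero_smul]
    rw [e1, e2]
    by_cases hk : k = i
    · subst hk; simp
    · simp [hk]
  rw [h2] at h1
  have h3 : NN (Function.update u i (u i + s • u j)) = NN u - N2 (u i) + N2 (u i + s • u j) := by
    simp only [NN]
    rw [← Finset.sum_erase_add _ _ (Finset.mem_univ i),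
      ← Finset.sum_erase_add (s := Finset.univ) (f := fun k => N2 (u k)) (a := i)
        (h := Finset.mem_univ i)]
    rw [Function.update_self]
    have : ∑ k ∈ Finset.univ.erase i, N2 (Function.update u i (u i + s • u j) k) =
        ∑ k ∈ Finset.univ.erase i, N2 (u k) := by
      refine Finset.sum_congr rfl fun k hk => ?_
      rw [Function.update_of_ne (Finset.ne_of_mem_erase hk)]
    rw [this]; ring
  rw [h3, N2_add, N2_smul, Matrix.smul_mul, Matrix.trace_smul, smul_eq_mul] at h1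
  linarith

theorem N2_le {C : Set (Matrix n n ℂ)} {u : Fin d → Matrix n n ℂ}
    (hmin : ∀ h b, (h, b) ∈ KK C d → NN u ≤ NN (act h b u)) {i j : Fin d} (hij : i ≠ j) :
    N2 (u j) ≤ N2 (u i) := by
  -- b = diag with t at i and 1/t at j
  have key : ∀ t : ℝ, 1 < t → N2 (u j) ≤ t ^ 2 * N2 (u i) := by
    intro t ht
    have ht0 : 0 < t := by linarith
    set D : Fin d → ℂ := fun k => if k = i then (t : ℂ) else if k = j then ((t⁻¹ : ℝ) : ℂ) else 1
      with hD
    have hdet : (Matrix.diagonal D).det = 1 := by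
      rw [Matrix.det_diagonal, ← Finset.mul_prod_erase _ _ (Finset.mem_univ i),
        ← Finset.mul_prod_erase _ _ (Finset.mem_erase.2 ⟨hij.symm, Finset.mem_univ j⟩)]
      have : ∏ k ∈ (Finset.univ.erase i).erase j, D k = 1 := by
        refine Finset.prod_eq_one fun k hk => ?_
        simp only [Finset.mem_erase, Finset.mem_univ, and_true] at hk
        simp [hD, hk.1, hk.2]
      rw [this]
      have e1 : D i = t := by simp [hD]
      have e2 : D j = ((t⁻¹ : ℝ) : ℂ) := by simp [hD, hij.symm]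
      rw [e1, e2, mul_one, ← Complex.ofReal_mul, mul_inv_cancel₀ ht0.ne', Complex.ofReal_one]
    have h1 := hmin 1 (Matrix.diagonal D) ⟨by simp, by simp, by simp [hdet]⟩
    have h2 : act 1 (Matrix.diagonal D) u = fun k => D k • u k := by
      funext k
      simp only [act, Matrix.one_mul, inv_one, Matrix.mul_one]
      rw [Finset.sum_eq_single k]
      · simp
      · intro l _ hl
        rw [Matrix.diagonal_apply_ne' _ hl, zero_smul]
      · simp
    rw [h2] at h1
    simp only [NN, N2_smul] at h1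
    rw [← Finset.add_sum_erase _ _ (Finset.mem_univ i),
      ← Finset.add_sum_erase _ _ (Finset.mem_erase.2 ⟨hij.symm, Finset.mem_univ j⟩),
      ← Finset.add_sum_erase (s := Finset.univ) (f := fun k => ‖D k‖ ^ 2 * N2 (u k)) (a := i)
        (h := Finset.mem_univ i),
      ← Finset.add_sum_erase (s := Finset.univ.erase i) (f := fun k => ‖D k‖ ^ 2 * N2 (u k))
        (a := j) (h := Finset.mem_erase.2 ⟨hij.symm, Finset.mem_univ j⟩)] at h1
    have : ∑ k ∈ (Finset.univ.erase i).erase j, ‖D k‖ ^ 2 * N2 (u k) =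
        ∑ k ∈ (Finset.univ.erase i).erase j, N2 (u k) := by
      refine Finset.sum_congr rfl fun k hk => ?_
      simp only [Finset.mem_erase, Finset.mem_univ, and_true] at hk
      simp [hD, hk.1, hk.2]
    rw [this] at h1
    have e1 : ‖D i‖ ^ 2 = t ^ 2 := by simp [hD]
    have e2 : ‖D j‖ ^ 2 = (t⁻¹) ^ 2 := by simp [hD, hij.symm]
    rw [e1, e2] at h1
    have h3 : (1 - (t⁻¹) ^ 2) * N2 (u j) ≤ (t ^ 2 - 1) * N2 (u i) := by linarith
    have h4 : (1 - (t⁻¹) ^ 2) = (t ^ 2 - 1) * (t⁻¹) ^ 2 := by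
      field_simp
    rw [h4, mul_assoc] at h3
    have h5 : 0 < t ^ 2 - 1 := by nlinarith
    have h6 := le_of_mul_le_mul_left h3 h5
    have h7 : t ^ 2 * ((t⁻¹) ^ 2 * N2 (u j)) = N2 (u j) := by
      field_simp
    rw [← h7]
    exact mul_le_mul_of_nonneg_left h6 (by positivity)
  have hlim : Tendsto (fun t : ℝ => t ^ 2 * N2 (u i)) (𝓝[>] 1) (𝓝 ((1 : ℝ) ^ 2 * N2 (u i))) := by
    refine Tendsto.mono_left ?_ nhdsWithin_le_nhds
    exact Continuous.tendsto (by fun_prop) _
  have := ge_of_tendsto hlim (b := N2 (u j)) (by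
    filter_upwards [self_mem_nhdsWithin] with t ht
    exact key t ht)
  simpa using this

theorem inv_tendsto (H : Matrix n n ℂ) :
    Tendsto (fun s : ℝ => (1 + (s : ℂ) • H)⁻¹) (𝓝 0) (𝓝 (1 : Matrix n n ℂ)) := by
  have h1 : Continuous fun s : ℝ => 1 + (s : ℂ) • H :=
    continuous_const.add ((Complex.continuous_ofReal).smul continuous_const)
  have h2 : Tendsto (fun s : ℝ => 1 + (s : ℂ) • H) (𝓝 0) (𝓝 (1 : Matrix n n ℂ)) := by
    have := h1.tendsto 0
    simpa using this
  have h3 : ContinuousAt (Inv.inv : Matrix n n ℂ → Matrix n n ℂ) (1 : Matrix n n ℂ) := by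
    refine continuousAt_matrix_inv _ ?_
    rw [Matrix.det_one]
    exact NormedRing.inverse_continuousAt (1 : ℂˣ)
  have h4 : Tendsto (Inv.inv : Matrix n n ℂ → Matrix n n ℂ) (𝓝 1) (𝓝 1) := by
    have := h3.tendsto
    rwa [inv_one] at this
  exact h4.comp h2

theorem det_eventually (H : Matrix n n ℂ) :
    ∀ᶠ s : ℝ in 𝓝 0, IsUnit (1 + (s : ℂ) • H).det := by
  have h1 : Continuous fun s : ℝ => (1 + (s : ℂ) • H).det :=
    (continuous_const.add ((Complex.continuous_ofReal).smul continuous_const)).matrix_det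
  have h2 : (1 + ((0 : ℝ) : ℂ) • H).det ≠ 0 := by simp
  have h3 := h1.continuousAt (x := 0) |>.eventually_ne h2
  filter_upwards [h3] with s hs
  exact isUnit_iff_ne_zero.2 hs

theorem moment_zero {C : Set (Matrix n n ℂ)} (hC : ∀ c ∈ C, cᴴ ∈ C) {u : Fin d → Matrix n n ℂ}
    (hu : ∀ i, ∀ c ∈ C, u i * c = c * u i)
    (hmin : ∀ h b, (h, b) ∈ KK C d → NN u ≤ NN (act h b u)) :
    ∑ i, (u i * (u i)ᴴ - (u i)ᴴ * u i) = 0 := by
  set H := ∑ i, (u i * (u i)ᴴ - (u i)ᴴ * u i) with hH
  have hu' : ∀ i, ∀ c ∈ C, (u i)ᴴ * c = c * (u i)ᴴ := by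
    intro i c hc
    have := hu i _ (hC c hc)
    have h2 := congrArg Matrix.conjTranspose this
    rw [Matrix.conjTranspose_mul, Matrix.conjTranspose_mul, Matrix.conjTranspose_conjTranspose] at h2
    exact h2.symm
  have hHC : ∀ c ∈ C, H * c = c * H := by
    intro c hc
    rw [hH, Finset.sum_mul, Finset.mul_sum]
    refine Finset.sum_congr rfl fun i _ => ?_
    rw [sub_mul, mul_sub, Matrix.mul_assoc, hu' i c hc, ← Matrix.mul_assoc, hu i c hc,
      Matrix.mul_assoc, Matrix.mul_assoc, hu i c hc, ← Matrix.mul_assoc (u i)ᴴ, hu' i c hc,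
      Matrix.mul_assoc]
  have hHs : Hᴴ = H := by
    rw [hH, Matrix.conjTranspose_sum]
    refine Finset.sum_congr rfl fun i _ => ?_
    rw [Matrix.conjTranspose_sub, Matrix.conjTranspose_mul, Matrix.conjTranspose_mul,
      Matrix.conjTranspose_conjTranspose]
  let h : ℝ → Matrix n n ℂ := fun s => 1 + (s : ℂ) • H
  let v : ℝ → Fin d → Matrix n n ℂ := fun s i => h s * u i * (h s)⁻¹
  have hv : ∀ i, Tendsto (fun s => v s i) (𝓝 0) (𝓝 (u i)) := by
    intro i
    have h1 : Continuous fun s : ℝ => h s * u i :=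
      (continuous_const.add ((Complex.continuous_ofReal).smul continuous_const)).matrix_mul
        continuous_const
    have h2 : Tendsto (fun s : ℝ => h s * u i) (𝓝 0) (𝓝 (u i)) := by
      have := h1.tendsto 0
      simpa [h] using this
    have h3 := h2.mul (inv_tendsto H)
    rw [Matrix.mul_one] at h3
    exact h3
  have key : ∀ᶠ s : ℝ in 𝓝[<] 0, 2 * ∑ i, (((H * u i - v s i * H) * (u i)ᴴ).trace).re +
      s * ∑ i, N2 (H * u i - v s i * H) ≤ 0 := by
    have he : ∀ᶠ s : ℝ in 𝓝[<] 0, IsUnit (1 + (s : ℂ) • H).det :=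
      (det_eventually H).filter_mono nhdsWithin_le_nhds
    filter_upwards [he, self_mem_nhdsWithin] with s hs hneg
    have hneg' : s < 0 := hneg
    have h1 := hmin (h s) 1 ⟨hs, by
      intro c hc
      show (1 + (s : ℂ) • H) * c = c * (1 + (s : ℂ) • H)
      rw [add_mul, mul_add, Matrix.one_mul, Matrix.mul_one, Matrix.smul_mul, Matrix.mul_smul,
        hHC c hc], by simp⟩
    have h2 : act (h s) 1 u = v s := by
      funext i
      simp [act, v, Matrix.one_apply]
    rw [h2] at h1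
    have h3 : ∀ i, v s i = u i + (s : ℂ) • (H * u i - v s i * H) := by
      intro i
      have e1 : v s i * h s = h s * u i := by
        show h s * u i * (h s)⁻¹ * h s = _
        rw [Matrix.mul_assoc, Matrix.nonsing_inv_mul _ hs, Matrix.mul_one]
      have e2 : v s i + (s : ℂ) • (v s i * H) = u i + (s : ℂ) • (H * u i) := by
        have : v s i * (1 + (s : ℂ) • H) = (1 + (s : ℂ) • H) * u i := e1
        rw [mul_add, add_mul, Matrix.mul_one, Matrix.one_mul, Matrix.mul_smul,
          Matrix.smul_mul] at this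
        exact this
      rw [smul_sub, ← add_sub_assoc, ← e2, add_sub_cancel_right]
    have h4 : NN (v s) = NN u + s * (2 * ∑ i, (((H * u i - v s i * H) * (u i)ᴴ).trace).re +
      s * ∑ i, N2 (H * u i - v s i * H)) := by
      have : ∀ i, N2 (v s i) = N2 (u i) + s * (2 * (((H * u i - v s i * H) * (u i)ᴴ).trace).re +
          s * N2 (H * u i - v s i * H)) := by
        intro i
        conv_lhs => rw [h3 i]
        rw [N2_add, N2_smul, Matrix.smul_mul, Matrix.trace_smul, smul_eq_mul,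
          Complex.re_ofReal_mul, Complex.norm_real, Real.norm_eq_abs, sq_abs]
        ring
      simp only [NN]
      rw [Finset.sum_congr rfl fun i _ => this i, Finset.sum_add_distrib, ← Finset.mul_sum,
        Finset.sum_add_distrib, ← Finset.mul_sum, ← Finset.mul_sum]
    rw [h4] at h1
    by_contra hcon
    push Not at hcon
    have := mul_neg_of_neg_of_pos hneg' hcon
    linarith
  have hlim : Tendsto (fun s : ℝ => 2 * ∑ i, (((H * u i - v s i * H) * (u i)ᴴ).trace).re +
      s * ∑ i, N2 (H * u i - v s i * H)) (𝓝[<] 0)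
      (𝓝 (2 * ∑ i, (((H * u i - u i * H) * (u i)ᴴ).trace).re +
      0 * ∑ i, N2 (H * u i - u i * H))) := by
    refine Tendsto.mono_left ?_ nhdsWithin_le_nhds
    have hw : ∀ i, Tendsto (fun s => H * u i - v s i * H) (𝓝 0) (𝓝 (H * u i - u i * H)) := by
      intro i
      exact tendsto_const_nhds.sub ((hv i).mul tendsto_const_nhds)
    have hcT : Continuous fun A : Matrix n n ℂ => A.trace := continuous_id.matrix_trace
    refine Tendsto.add (tendsto_const_nhds.mul (tendsto_finsetSum _ fun i _ => ?_))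
      (tendsto_id.mul (tendsto_finsetSum _ fun i _ => (N2_cont.tendsto _).comp (hw i)))
    exact (Complex.continuous_re.tendsto _).comp
      ((hcT.tendsto _).comp ((hw i).mul tendsto_const_nhds))
  have hle := le_of_tendsto hlim key
  have hsum : ∑ i, (((H * u i - u i * H) * (u i)ᴴ).trace) = (H * H).trace := by
    conv_rhs => rw [hH, Finset.mul_sum, Matrix.trace_sum]
    rw [← hH]
    refine Finset.sum_congr rfl fun i _ => ?_
    rw [sub_mul, mul_sub, Matrix.trace_sub, Matrix.trace_sub, Matrix.mul_assoc]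
    congr 1
    rw [Matrix.mul_assoc, Matrix.trace_mul_comm, Matrix.mul_assoc]
  have h5 : (H * H).trace = ((N2 H : ℝ) : ℂ) := by
    conv_lhs => rw [← hHs]
    rw [hHs, ← N2_trace, hHs]
  have h6 : ∑ i, (((H * u i - u i * H) * (u i)ᴴ).trace).re = N2 H := by
    rw [← Complex.re_sum, hsum, h5, Complex.ofReal_re]
  rw [h6] at hle
  exact N2_eq_zero H (le_antisymm (by linarith) (N2_nonneg H))

theorem core (C : Set (Matrix n n ℂ)) (hC : ∀ c ∈ C, cᴴ ∈ C) (d : ℕ) (x : Fin d → Matrix n n ℂ)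
    (hx : ∀ i, ∀ c ∈ C, x i * c = c * x i)
    (hdet : (Matrix.of fun i j => (x i * x j).trace).det ≠ 0) :
    ∃ (g : ℕ → Matrix n n ℂ) (a : ℕ → Matrix (Fin d) (Fin d) ℂ) (u : Fin d → Matrix n n ℂ)
      (lam : ℝ),
      (∀ k, IsUnit (g k).det) ∧ (∀ k, ∀ c ∈ C, g k * c = c * g k) ∧ (∀ k, ‖(a k).det‖ = 1) ∧
      (∀ i, Tendsto (fun k => ∑ j, a k i j • (g k * x j * (g k)⁻¹)) atTop (𝓝 (u i))) ∧
      0 < lam ∧ (∀ i j, (u i * (u j)ᴴ).trace = if i = j then (lam : ℂ) else 0) ∧
      ∑ i, (u i * (u i)ᴴ - (u i)ᴴ * u i) = 0 := by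
  obtain ⟨q, u, hq, hlim, hmin⟩ := exists_min C x
  have hlim' : ∀ i, Tendsto (fun k => act (q k).1 (q k).2 x i) atTop (𝓝 (u i)) :=
    fun i => (continuous_apply i).tendsto _ |>.comp hlim
  -- the limits commute with `C`
  have hu : ∀ i, ∀ c ∈ C, u i * c = c * u i := by
    intro i c hc
    have h1 : Tendsto (fun k => act (q k).1 (q k).2 x i * c) atTop (𝓝 (u i * c)) :=
      (hlim' i).mul tendsto_const_nhds
    have h2 : Tendsto (fun k => c * act (q k).1 (q k).2 x i) atTop (𝓝 (c * u i)) :=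
      tendsto_const_nhds.mul (hlim' i)
    have h3 : (fun k => act (q k).1 (q k).2 x i * c) = fun k => c * act (q k).1 (q k).2 x i := by
      funext k
      simp only [act, Finset.sum_mul, Finset.mul_sum, Matrix.smul_mul, Matrix.mul_smul]
      refine Finset.sum_congr rfl fun j _ => ?_
      congr 1
      have hg := (hq k).2.1 c hc
      have hgi : ((q k).1)⁻¹ * c = c * ((q k).1)⁻¹ := by
        calc ((q k).1)⁻¹ * c = ((q k).1)⁻¹ * c * ((q k).1 * ((q k).1)⁻¹) := by
              rw [Matrix.mul_nonsing_inv _ (hq k).1, Matrix.mul_one]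
          _ = ((q k).1)⁻¹ * (c * (q k).1) * ((q k).1)⁻¹ := by simp only [Matrix.mul_assoc]
          _ = ((q k).1)⁻¹ * ((q k).1 * c) * ((q k).1)⁻¹ := by rw [hg]
          _ = (((q k).1)⁻¹ * (q k).1) * c * ((q k).1)⁻¹ := by simp only [Matrix.mul_assoc]
          _ = _ := by rw [Matrix.nonsing_inv_mul _ (hq k).1, Matrix.one_mul]
      rw [Matrix.mul_assoc, hgi, ← Matrix.mul_assoc, Matrix.mul_assoc (q k).1, hx j c hc,
        ← Matrix.mul_assoc, hg]
      simp only [Matrix.mul_assoc]
    rw [h3] at h1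
    exact tendsto_nhds_unique h1 h2
  -- the Gram determinant
  have hgram : (Matrix.of fun i j => (u i * u j).trace).det ≠ 0 := by
    have hc : Continuous fun y : Fin d → Matrix n n ℂ =>
        ‖(Matrix.of fun i j => (y i * y j).trace).det‖ := by
      refine continuous_norm.comp (Continuous.matrix_det ?_)
      refine continuous_matrix fun i j => ?_
      exact ((continuous_apply i).matrix_mul (continuous_apply j)).matrix_trace
    have h1 := (hc.tendsto u).comp hlim
    have h2 : ∀ k, ‖(Matrix.of fun i j => (act (q k).1 (q k).2 x i *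
        act (q k).1 (q k).2 x j).trace).det‖ = ‖(Matrix.of fun i j => (x i * x j).trace).det‖ := by
      intro k
      rw [act_trace _ (hq k).1, Matrix.det_mul, Matrix.det_mul, Matrix.det_transpose, norm_mul,
        norm_mul, (hq k).2.2, one_mul, mul_one]
    have h3 : ‖(Matrix.of fun i j => (u i * u j).trace).det‖ =
        ‖(Matrix.of fun i j => (x i * x j).trace).det‖ := by
      refine tendsto_nhds_unique h1 ?_
      have : ((fun y : Fin d → Matrix n n ℂ => ‖(Matrix.of fun i j => (y i * y j).trace).det‖) ∘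
          fun k => act (q k).1 (q k).2 x) = fun _ =>
          ‖(Matrix.of fun i j => (x i * x j).trace).det‖ := by
        funext k; exact h2 k
      rw [this]
      exact tendsto_const_nhds
    rw [← norm_ne_zero_iff, h3]
    exact norm_ne_zero_iff.2 hdet
  have hpos : ∀ i, 0 < N2 (u i) := by
    intro i
    refine lt_of_le_of_ne (N2_nonneg _) fun h0 => hgram ?_
    have h1 := N2_eq_zero _ h0.symm
    refine Matrix.det_eq_zero_of_row_eq_zero i fun j => ?_
    rw [Matrix.of_apply, h1, Matrix.zero_mul, Matrix.trace_zero]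
  have hN : ∀ i j, N2 (u i) = N2 (u j) := by
    intro i j
    by_cases hij : i = j
    · rw [hij]
    · exact le_antisymm (N2_le hmin (Ne.symm hij)) (N2_le hmin hij)
  obtain ⟨lam, hlam, hlamN⟩ : ∃ lam : ℝ, 0 < lam ∧ ∀ i, N2 (u i) = lam := by
    rcases isEmpty_or_nonempty (Fin d) with hd | ⟨⟨i0⟩⟩
    · exact ⟨1, one_pos, fun i => hd.elim i⟩
    · exact ⟨N2 (u i0), hpos i0, fun i => hN i i0⟩
  refine ⟨fun k => (q k).1, fun k => (q k).2, u, lam, fun k => (hq k).1, fun k => (hq k).2.1,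
    fun k => (hq k).2.2, hlim', hlam, fun i j => ?_, moment_zero hC hu hmin⟩
  by_cases hij : i = j
  · subst hij
    rw [if_pos rfl, N2_trace, hlamN]
  · rw [if_neg hij]
    exact orth_ne hmin (Ne.symm hij)

end Pool.Agent.E8helper39.TW
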