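import Pool.Agent.E8helper1.TW.Stm
import Pool.Agent.E8helper39.TW.Core

/-!
# Piece LIM1 of the project TW: minimal vectors
-/

set_option autoImplicit false

namespace Pool.Agent.E8helper39.TW

open Matrix Filter Topology

theorem t_LIM1 : Pool.Agent.E8helper1.TW.S_LIM1 := by
  intro n _ _ C hC d x hx hdet
  obtain ⟨g, a, u, lam, h1, h2, h3, h4, h5, h6, h7⟩ := core C hC d x hx hdet
  exact ⟨⟨g, a, u, lam, h1, h2, h3, h4, h5, h6⟩, h7⟩

end Pool.Agent.E8helper39.TW
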